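import Mathlib
import Pool.Agent.KTB.StmtsKA

/-! # Squad KTB, row BFI: end of the base case -/

set_option autoImplicit false

namespace Pool.Agent.KTB.H51

open Finset
open scoped Classical

variable {ι T : Type} [Fintype ι]

theorem mem_sp' {D : Dat ι T} {S : Finset ι} {t y : ι} :
    y ∈ D.sp S t ↔ y ∈ S ∧ ∃ c : ℚ, 0 < c ∧ ∀ ρ ∈ D.R S, ρ y = c * ρ t := by
  unfold Dat.sp
  exact mem_filter

theorem mem_sm' {D : Dat ι T} {S : Finset ι} {t y : ι} :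
    y ∈ D.sm S t ↔ y ∈ S ∧ ∃ c : ℚ, 0 < c ∧ ∀ ρ ∈ D.R S, ρ y = -(c * ρ t) := by
  unfold Dat.sm
  exact mem_filter

theorem mem_sg' {D : Dat ι T} {S : Finset ι} {t y : ι} :
    y ∈ D.sg S t ↔ y ∈ S ∧ ∃ c : ℚ, c ≠ 0 ∧ ∀ ρ ∈ D.R S, ρ y = c * ρ t := by
  unfold Dat.sg
  exact mem_filter

omit [Fintype ι] in
/-- nonnegative terms, every nonzero term is at least the sum -/
theorem bfi_one {M : Finset T} {R : Finset ι} (x : T → ι → ℕ) (p : ι → ℚ) (Θ : ℚ)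
    (hΘ : Θ = ∑ k ∈ M, ∑ r ∈ R, (x k r : ℚ) * p r) (hp : ∀ r ∈ R, 0 < p r) (hpos : 0 < Θ)
    (hge : ∀ k ∈ M, ∀ r ∈ R, x k r ≠ 0 → Θ ≤ p r) {k₀ : T} {r₀ : ι} (hk : k₀ ∈ M) (hr : r₀ ∈ R)
    (hx : x k₀ r₀ ≠ 0) :
    x k₀ r₀ = 1 ∧ p r₀ = Θ ∧ ∀ j ∈ M, ∀ b ∈ R, x j b ≠ 0 → j = k₀ ∧ b = r₀ := by
  have hΘ' : Θ = ∑ a ∈ M ×ˢ R, (x a.1 a.2 : ℚ) * p a.2 := by
    rw [hΘ, Finset.sum_product]
  have hnn : ∀ a ∈ M ×ˢ R, 0 ≤ (x a.1 a.2 : ℚ) * p a.2 := by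
    intro a ha
    exact mul_nonneg (Nat.cast_nonneg _) (hp _ (mem_product.1 ha).2).le
  have hterm : ∀ k ∈ M, ∀ r ∈ R, x k r ≠ 0 → Θ ≤ (x k r : ℚ) * p r := by
    intro k hk r hr hx
    have h1 : (1 : ℚ) ≤ (x k r : ℚ) := by exact_mod_cast Nat.one_le_iff_ne_zero.2 hx
    have h2 := hge k hk r hr hx
    nlinarith [hp r hr]
  have h0 : (x k₀ r₀ : ℚ) * p r₀ ≤ Θ := by
    rw [hΘ']
    exact Finset.single_le_sum hnn (mem_product.2 ⟨hk, hr⟩ : ((k₀, r₀) : T × ι) ∈ M ×ˢ R)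
  have h1 : (1 : ℚ) ≤ (x k₀ r₀ : ℚ) := by exact_mod_cast Nat.one_le_iff_ne_zero.2 hx
  have h2 := hge k₀ hk r₀ hr hx
  have h3 : (x k₀ r₀ : ℚ) ≤ 1 := by
    by_contra hcon
    push Not at hcon
    nlinarith
  have h4 : (x k₀ r₀ : ℚ) = 1 := le_antisymm h3 h1
  refine ⟨by exact_mod_cast h4, ?_, ?_⟩
  · rw [h4, one_mul] at h0
    exact le_antisymm h0 h2
  · intro j hj b hb hjb
    by_contra hcon
    have hne : ((j, b) : T × ι) ≠ (k₀, r₀) := by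
      intro h
      rw [Prod.mk.injEq] at h
      exact hcon h
    have hsub : ({(j, b), (k₀, r₀)} : Finset (T × ι)) ⊆ M ×ˢ R := by
      intro a ha
      rw [mem_insert, mem_singleton] at ha
      rcases ha with rfl | rfl
      · exact mem_product.2 ⟨hj, hb⟩
      · exact mem_product.2 ⟨hk, hr⟩
    have h5 := Finset.sum_le_sum_of_subset_of_nonneg hsub (fun a ha _ => hnn a ha)
    rw [Finset.sum_pair hne, ← hΘ'] at h5
    have h6 := hterm j hj b hb hjb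
    have h7 := hterm k₀ hk r₀ hr hx
    have h8 : Θ + Θ ≤ Θ := le_trans (add_le_add h6 h7) h5
    linarith

theorem bfi (_idn : IdnStmt) (ray : RayStmt) (tch : TchStmt) (bpl : BplStmt) : BfiStmt := by
  intro ι T _ D S R p f M t U π kk Q Rh q hBC hBH
  obtain ⟨k₀, hk₀, r₀, hr₀, hx₀⟩ := hBC.tch
  have hr₀h : r₀ ∈ Rh := hBH.RRh hr₀
  have hr₀Q : r₀ ∈ Q := hBH.RhQ hr₀h
  have htQ : t ∈ Q := hBH.RhQ (hBH.RRh hBC.tR)
  have hqpos : ∀ r ∈ Q, 0 < q r := fun r hr => (hBH.ray.2.1 r hr).1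
  have hppos : ∀ r ∈ R, 0 < p r := fun r hr => (hBC.vd.2.1.2.1 r hr).1
  have hQS : Q ⊆ S := hBH.ray.1
  obtain ⟨-, ⟨s, hs1, -, ⟨ρ₁, hρ₁, hρ₁s⟩, -⟩, -⟩ := ray ι T D S Q q f hBH.ray ⟨t, htQ⟩
  have hpt : p t = q t := (hBH.pq t hBC.tR).symm
  have hpt0 : 0 < p t := hppos t hBC.tR
  have hρ₁t : ρ₁ t ≠ 0 := by
    rw [hs1 ρ₁ hρ₁ t htQ]
    exact mul_ne_zero (hqpos t htQ).ne' hρ₁s
  have hdisj : ∀ y, y ∈ D.sp S t → y ∈ D.sm S t → False := by
    intro y h1 h2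
    obtain ⟨-, c, hc, h3⟩ := mem_sp'.1 h1
    obtain ⟨-, c', hc', h4⟩ := mem_sm'.1 h2
    have h5 := h3 ρ₁ hρ₁
    rw [h4 ρ₁ hρ₁] at h5
    have h6 : (c + c') * ρ₁ t = 0 := by linarith
    rcases mul_eq_zero.1 h6 with h7 | h7
    · linarith
    · exact hρ₁t h7
  have hRhsp : ∀ y ∈ Rh, y ∈ D.sp S t := fun y hy => hBH.Qsp (hBH.RhQ hy)
  -- (1)
  obtain ⟨h, Y, κ, hYinj, hY⟩ := bpl ι T D S R p f M t U π kk Q Rh q hBC hBH k₀ hk₀ r₀ hr₀ hx₀
  have hπinj := hBC.bij.injOn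
  have hginj : Set.InjOn (fun A => π (Y A)) ((Rh.erase r₀ : Finset ι) : Set ι) := by
    intro A hA B hB hAB
    exact hYinj hA hB (hπinj (hY A hA).1 (hY B hB).1 hAB)
  have hgmap : ∀ A ∈ Rh.erase r₀, π (Y A) ∈ Rh \ U := fun A hA =>
    mem_sdiff.2 ⟨(hY A hA).2.1, (hY A hA).2.2.1⟩
  have hcard1 : (Rh.erase r₀).card ≤ (Rh \ U).card :=
    Finset.card_le_card_of_injOn _ hgmap hginj
  rw [card_erase_of_mem hr₀h, card_sdiff_of_subset hBH.URh] at hcard1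
  have hUcard := card_le_card hBH.URh
  have hRhpos : 0 < Rh.card := card_pos.2 ⟨r₀, hr₀h⟩
  -- (2)
  obtain ⟨Θ, hΘ⟩ : ∃ Θ : ℚ, Θ = ∑ k ∈ M, ∑ r ∈ R, (D.x k r : ℚ) * p r := ⟨_, rfl⟩
  have hex : ∀ u, ∃ c : ℚ, (u ∈ Q → c = q u) ∧
      (u ∈ D.sp S t → ∀ ρ ∈ D.R S, p t * ρ u = c * ρ t) := by
    intro u
    by_cases huQ : u ∈ Q
    · refine ⟨q u, fun _ => rfl, fun _ ρ hρ => ?_⟩
      rw [hs1 ρ hρ u huQ, hs1 ρ hρ t htQ, hpt]
      ring
    · by_cases hu : u ∈ D.sp S t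
      · obtain ⟨-, c, -, hc⟩ := mem_sp'.1 hu
        refine ⟨p t * c, fun h => absurd h huQ, fun _ ρ hρ => ?_⟩
        rw [hc ρ hρ]
        ring
      · exact ⟨0, fun h => absurd h huQ, fun h => absurd h hu⟩
  choose q' hq'1 hq'2 using hex
  have hUsum : ∑ u ∈ U, q u = Θ := by
    rw [hΘ, ← hBC.sum q' hq'2]
    exact Finset.sum_congr rfl fun u hu => (hq'1 u (hBH.RhQ (hBH.URh hu))).symm
  have hΘpos : 0 < Θ := by
    rw [hΘ]
    refine Finset.sum_pos' (fun k _ => Finset.sum_nonneg fun r hr =>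
      mul_nonneg (Nat.cast_nonneg _) (hppos r hr).le) ⟨k₀, hk₀, ?_⟩
    refine Finset.sum_pos' (fun r hr => mul_nonneg (Nat.cast_nonneg _) (hppos r hr).le)
      ⟨r₀, hr₀, ?_⟩
    exact mul_pos (by exact_mod_cast Nat.pos_of_ne_zero hx₀) (hppos r₀ hr₀)
  have hUne : U.Nonempty := by
    rw [nonempty_iff_ne_empty]
    rintro rfl
    rw [sum_empty] at hUsum
    exact hΘpos.ne hUsum
  have hU1 : U.card = 1 := by
    have := card_pos.2 hUne
    omega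
  obtain ⟨u, hu⟩ := card_eq_one.1 hU1
  have huU : u ∈ U := by rw [hu]; exact mem_singleton_self u
  have huRh : u ∈ Rh := hBH.URh huU
  have hqu : q u = Θ := by
    rw [hu, sum_singleton] at hUsum
    exact hUsum
  -- (3)
  obtain ⟨X, hXRh, huX, hXvd, hXq⟩ := hBH.xu u huU
  obtain ⟨Mh, hMh⟩ := hBC.all Rh ⟨q, f, hBH.vd⟩
  obtain ⟨MX, hMX⟩ := hBC.all X ⟨q, f, hXvd⟩
  have ht1 := tch ι T D S Rh R q p f f Mh M hBH.vd hBC.vd hBH.RRh hMh hBC.tm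
  have ht2 := tch ι T D S Rh X q q f f Mh MX hBH.vd hXvd hXRh hMh hMX
  have hge : ∀ k ∈ M, ∀ r ∈ R, D.x k r ≠ 0 → Θ ≤ p r := by
    intro k hk r hr hkr
    rw [ht1.1] at hk
    have h1 := ht2.2 k hk r (hBH.RRh hr) hkr
    rw [← hBH.pq r hr, ← hqu]
    exact hXq r h1
  obtain ⟨hx1, hpr₀, huniq⟩ := bfi_one D.x p Θ hΘ hppos hΘpos hge hk₀ hr₀ hx₀
  refine ⟨r₀, hr₀, k₀, hk₀, hx1, huniq, ?_⟩
  -- (4)
  have hqr₀ : q r₀ = q u := by rw [hBH.pq r₀ hr₀, hpr₀, hqu]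
  have hgmap' : ∀ A ∈ Rh.erase r₀, π (Y A) ∈ Rh.erase u := by
    intro A hA
    refine mem_erase.2 ⟨?_, (hY A hA).2.1⟩
    rintro h1
    exact (hY A hA).2.2.1 (h1 ▸ huU)
  have himg : (Rh.erase r₀).image (fun A => π (Y A)) = Rh.erase u := by
    apply Finset.eq_of_subset_of_card_le
    · intro b hb
      obtain ⟨A, hA, rfl⟩ := mem_image.1 hb
      exact hgmap' A hA
    · rw [card_image_of_injOn hginj, card_erase_of_mem hr₀h, card_erase_of_mem huRh]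
  have hsum1 : ∑ A ∈ Rh.erase r₀, q (π (Y A)) = ∑ b ∈ Rh.erase u, q b := by
    rw [← himg, sum_image hginj]
  have hsum2 : ∑ b ∈ Rh.erase u, q b = ∑ b ∈ Rh.erase r₀, q b := by
    have h1 := Finset.add_sum_erase Rh q huRh
    have h2 := Finset.add_sum_erase Rh q hr₀h
    linarith
  have hQA : ∀ A ∈ Rh.erase r₀, A ∈ (Rh.erase r₀).filter fun b => h A ≤ h b := fun A hA =>
    mem_filter.2 ⟨hA, le_rfl⟩
  have hqn : ∀ A, ∀ b ∈ (Rh.erase r₀).filter (fun b => h A ≤ h b), 0 < q b := fun A b hb =>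
    hqpos b (hBH.RhQ (mem_of_mem_erase (mem_filter.1 hb).1))
  have hle : ∀ A ∈ Rh.erase r₀, q A ≤ q (π (Y A)) := by
    intro A hA
    rw [(hY A hA).2.2.2.2.2]
    have h1 : (D.x (κ A) A : ℚ) * q A ≤
        ∑ b ∈ (Rh.erase r₀).filter fun b => h A ≤ h b, (D.x (κ A) b : ℚ) * q b :=
      Finset.single_le_sum (f := fun b => (D.x (κ A) b : ℚ) * q b)
        (fun b hb => mul_nonneg (Nat.cast_nonneg _) (hqn A b hb).le) (hQA A hA)
    have h2 : (1 : ℚ) ≤ (D.x (κ A) A : ℚ) := by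
      exact_mod_cast Nat.one_le_iff_ne_zero.2 (hY A hA).2.2.2.1
    have h3 := hqn A A (hQA A hA)
    nlinarith
  have heq : ∀ A ∈ Rh.erase r₀, q A = q (π (Y A)) := by
    have h1 : ∑ A ∈ Rh.erase r₀, q A = ∑ A ∈ Rh.erase r₀, q (π (Y A)) := by
      rw [hsum1, hsum2]
    exact (Finset.sum_eq_sum_iff_of_le hle).1 h1
  have hclean : ∀ A ∈ Rh.erase r₀, D.Clean S (κ A) (Y A) A := by
    intro A hA
    have hYA := hY A hA
    obtain ⟨hPS, hPx, hPz⟩ := hYA.2.2.2.2.1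
    have hAS : A ∈ S := hQS (hBH.RhQ (mem_of_mem_erase hA))
    have hne : Y A ≠ A := by
      intro h1
      rw [h1] at hPS
      exact (mem_sdiff.1 hPS).2 (hQA A hA)
    have hAq : q A = ∑ b ∈ (Rh.erase r₀).filter fun b => h A ≤ h b, (D.x (κ A) b : ℚ) * q b := by
      rw [← hYA.2.2.2.2.2]
      exact heq A hA
    have hqA := hqn A A (hQA A hA)
    have h2 : (1 : ℚ) ≤ (D.x (κ A) A : ℚ) := by
      exact_mod_cast Nat.one_le_iff_ne_zero.2 hYA.2.2.2.1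
    rw [← Finset.add_sum_erase _ _ (hQA A hA)] at hAq
    have hrest : 0 ≤ ∑ b ∈ ((Rh.erase r₀).filter fun b => h A ≤ h b).erase A,
        (D.x (κ A) b : ℚ) * q b :=
      Finset.sum_nonneg fun b hb => mul_nonneg (Nat.cast_nonneg _)
        (hqn A b (mem_of_mem_erase hb)).le
    have hrest0 : ∑ b ∈ ((Rh.erase r₀).filter fun b => h A ≤ h b).erase A,
        (D.x (κ A) b : ℚ) * q b = 0 := by nlinarith
    have hxA : (D.x (κ A) A : ℚ) = 1 := by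
      rw [hrest0, add_zero] at hAq
      have h3 : ((D.x (κ A) A : ℚ) - 1) * q A = 0 := by linarith
      rcases mul_eq_zero.1 h3 with h4 | h4
      · linarith
      · exact absurd h4 hqA.ne'
    refine ⟨(mem_sdiff.1 hPS).1, hAS, hne, hPx, by exact_mod_cast hxA, ?_⟩
    intro b hb hb1 hb2
    by_cases hbQ : b ∈ (Rh.erase r₀).filter fun b => h A ≤ h b
    · have h3 := (Finset.sum_eq_zero_iff_of_nonneg (fun b hb => mul_nonneg (Nat.cast_nonneg _)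
        (hqn A b (mem_of_mem_erase hb)).le)).1 hrest0 b (mem_erase.2 ⟨hb2, hbQ⟩)
      rcases mul_eq_zero.1 h3 with h4 | h4
      · exact_mod_cast h4
      · exact absurd h4 (hqn A b hbQ).ne'
    · exact hPz b (mem_sdiff.2 ⟨hb, hbQ⟩) hb1
  -- (5)
  obtain ⟨Y₁, hY₁⟩ : ∃ Y₁ : Finset ι, Y₁ = (Rh.erase r₀).image Y := ⟨_, rfl⟩
  have hZ : ∀ W ∈ D.sm S t, π W ∈ Rh → W ∈ Y₁ := by
    have hsub : Y₁ ⊆ (D.sm S t).filter fun W => π W ∈ Rh := by
      intro W hW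
      rw [hY₁] at hW
      obtain ⟨A, hA, rfl⟩ := mem_image.1 hW
      exact mem_filter.2 ⟨(hY A hA).1, (hY A hA).2.1⟩
    have hcY : Y₁.card = Rh.card - 1 := by
      rw [hY₁, card_image_of_injOn hYinj, card_erase_of_mem hr₀h]
    have hcZ : ((D.sm S t).filter fun W => π W ∈ Rh).card ≤ (Rh.erase u).card := by
      apply Finset.card_le_card_of_injOn π
      · intro W hW
        obtain ⟨hW1, hW2⟩ := mem_filter.1 hW
        have h3 := hBC.bij.mapsTo hW1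
        rw [mem_coe, mem_sdiff] at h3
        refine mem_erase.2 ⟨?_, hW2⟩
        rintro h4
        exact h3.2 (h4 ▸ huU)
      · intro W hW W' hW' hWW
        exact hπinj (mem_filter.1 hW).1 (mem_filter.1 hW').1 hWW
    rw [card_erase_of_mem huRh] at hcZ
    have heqZ := Finset.eq_of_subset_of_card_le hsub (by omega)
    intro W hW hπW
    rw [heqZ]
    exact mem_filter.2 ⟨hW, hπW⟩
  have hπsp : ∀ W ∈ D.sm S t, π W ∈ D.sp S t := by
    intro W hW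
    have h3 := hBC.bij.mapsTo hW
    rw [mem_coe, mem_sdiff] at h3
    exact h3.1
  have hrt : ∀ ρ ∈ D.R S, ρ t = q t / q r₀ * ρ r₀ := by
    intro ρ hρ
    rw [hs1 ρ hρ t htQ, hs1 ρ hρ r₀ hr₀Q]
    have := (hqpos r₀ hr₀Q).ne'
    field_simp
  have hrr : 0 < q t / q r₀ := div_pos (hqpos t htQ) (hqpos r₀ hr₀Q)
  have hsp_sg : ∀ y ∈ D.sp S t, y ∈ D.sg S r₀ := by
    intro y hy
    obtain ⟨hyS, c, hc, h3⟩ := mem_sp'.1 hy
    refine mem_sg'.2 ⟨hyS, c * (q t / q r₀), (mul_pos hc hrr).ne', fun ρ hρ => ?_⟩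
    rw [h3 ρ hρ, hrt ρ hρ]
    ring
  have hsm_sg : ∀ y ∈ D.sm S t, y ∈ D.sg S r₀ := by
    intro y hy
    obtain ⟨hyS, c, hc, h3⟩ := mem_sm'.1 hy
    refine mem_sg'.2 ⟨hyS, -(c * (q t / q r₀)), (neg_neg_of_pos (mul_pos hc hrr)).ne,
      fun ρ hρ => ?_⟩
    rw [h3 ρ hρ, hrt ρ hρ]
    ring
  have hsg : ∀ y ∈ D.sg S r₀, y ∈ D.sp S t ∨ y ∈ D.sm S t := by
    intro y hy
    obtain ⟨hyS, c, hc, h3⟩ := mem_sg'.1 hy
    have h4 : ∀ ρ ∈ D.R S, ρ y = c * (q r₀ / q t) * ρ t := by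
      intro ρ hρ
      rw [h3 ρ hρ, hrt ρ hρ]
      have e1 := (hqpos r₀ hr₀Q).ne'
      have e2 := (hqpos t htQ).ne'
      field_simp
    have hrr' : 0 < q r₀ / q t := div_pos (hqpos r₀ hr₀Q) (hqpos t htQ)
    rcases lt_or_gt_of_ne hc with h5 | h5
    · right
      refine mem_sm'.2 ⟨hyS, -(c * (q r₀ / q t)), by nlinarith, fun ρ hρ => ?_⟩
      rw [h4 ρ hρ]
      ring
    · left
      exact mem_sp'.2 ⟨hyS, c * (q r₀ / q t), mul_pos h5 hrr', h4⟩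
  have hr₀sp := hRhsp r₀ hr₀h
  -- owners
  have hown : ∀ {k : T} {y y' a : ι}, D.Clean S k y y' → a ∈ S → D.x k a ≠ 0 → a = y ∨ a = y' := by
    intro k y y' a hcl ha hxa
    by_contra hcon
    push Not at hcon
    exact hxa (hcl.2.2.2.2.2 a ha hcon.1 hcon.2)
  refine ⟨(Rh.erase r₀).image κ ∪ (D.sm S t \ Y₁).image kk, ?_, ?_⟩
  · intro k hk
    rcases mem_union.1 hk with hk | hk
    · obtain ⟨A, hA, rfl⟩ := mem_image.1 hk
      refine ⟨Y A, mem_erase.2 ⟨?_, hsm_sg _ (hY A hA).1⟩, A,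
        mem_erase.2 ⟨ne_of_mem_erase hA, hsp_sg _ (hRhsp A (mem_of_mem_erase hA))⟩, hclean A hA⟩
      intro h1
      exact hdisj r₀ hr₀sp (h1 ▸ (hY A hA).1)
    · obtain ⟨W, hW, rfl⟩ := mem_image.1 hk
      obtain ⟨hW1, hW2⟩ := mem_sdiff.1 hW
      refine ⟨W, mem_erase.2 ⟨?_, hsm_sg _ hW1⟩, π W, mem_erase.2 ⟨?_, hsp_sg _ (hπsp W hW1)⟩,
        hBC.cln W hW1⟩
      · rintro rfl
        exact hdisj W hr₀sp hW1
      · intro h1
        exact hW2 (hZ W hW1 (h1 ▸ hr₀h))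
  · intro a ha
    obtain ⟨har, hasg⟩ := mem_erase.1 ha
    have haS : a ∈ S := (mem_sg'.1 hasg).1
    apply existsUnique_of_exists_of_unique
    · rcases hsg a hasg with hsp | hsm
      · by_cases haRh : a ∈ Rh
        · have hA : a ∈ Rh.erase r₀ := mem_erase.2 ⟨har, haRh⟩
          exact ⟨κ a, mem_union_left _ (mem_image_of_mem κ hA), (hY a hA).2.2.2.1⟩
        · have h1 : a ∈ ((D.sp S t \ U : Finset ι) : Set ι) := by
            rw [mem_coe, mem_sdiff]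
            exact ⟨hsp, fun h2 => haRh (hBH.URh h2)⟩
          obtain ⟨W, hW, hWa⟩ := hBC.bij.surjOn h1
          have hW' : W ∈ D.sm S t := hW
          have hWY : W ∉ Y₁ := by
            intro h2
            rw [hY₁] at h2
            obtain ⟨A, hA, rfl⟩ := mem_image.1 h2
            exact haRh (hWa ▸ (hY A hA).2.1)
          refine ⟨kk W, mem_union_right _ (mem_image_of_mem kk (mem_sdiff.2 ⟨hW', hWY⟩)), ?_⟩
          rw [← hWa, (hBC.cln W hW').2.2.2.2.1]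
          exact one_ne_zero
      · by_cases haY : a ∈ Y₁
        · rw [hY₁] at haY
          obtain ⟨A, hA, rfl⟩ := mem_image.1 haY
          refine ⟨κ A, mem_union_left _ (mem_image_of_mem κ hA), ?_⟩
          rw [(hclean A hA).2.2.2.1]
          exact one_ne_zero
        · refine ⟨kk a, mem_union_right _ (mem_image_of_mem kk (mem_sdiff.2 ⟨hsm, haY⟩)), ?_⟩
          rw [(hBC.cln a hsm).2.2.2.1]
          exact one_ne_zero
    · have key : ∀ A ∈ Rh.erase r₀, ∀ W ∈ D.sm S t, W ∉ Y₁ → D.x (κ A) a ≠ 0 →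
          D.x (kk W) a ≠ 0 → False := by
        intro A hA W hW hWY h1 h2
        have hAsp := hRhsp A (mem_of_mem_erase hA)
        rcases hown (hclean A hA) haS h1 with e1 | e1 <;>
          rcases hown (hBC.cln W hW) haS h2 with e2 | e2
        · apply hWY
          rw [← e2, e1, hY₁]
          exact mem_image_of_mem Y hA
        · exact hdisj a (e2 ▸ hπsp W hW) (e1 ▸ (hY A hA).1)
        · exact hdisj a (e1 ▸ hAsp) (e2 ▸ hW)
        · apply hWY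
          apply hZ W hW
          rw [← e2, e1]
          exact mem_of_mem_erase hA
      rintro k k' ⟨hk, hxk⟩ ⟨hk', hxk'⟩
      rcases mem_union.1 hk with hk | hk <;> rcases mem_union.1 hk' with hk' | hk'
      · obtain ⟨A, hA, rfl⟩ := mem_image.1 hk
        obtain ⟨B, hB, rfl⟩ := mem_image.1 hk'
        have hAsp := hRhsp A (mem_of_mem_erase hA)
        have hBsp := hRhsp B (mem_of_mem_erase hB)
        rcases hown (hclean A hA) haS hxk with e1 | e1 <;>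
          rcases hown (hclean B hB) haS hxk' with e2 | e2
        · rw [hYinj hA hB (e1.symm.trans e2)]
        · exact (hdisj a (e2 ▸ hBsp) (e1 ▸ (hY A hA).1)).elim
        · exact (hdisj a (e1 ▸ hAsp) (e2 ▸ (hY B hB).1)).elim
        · rw [← e1, ← e2]
      · obtain ⟨A, hA, rfl⟩ := mem_image.1 hk
        obtain ⟨W, hW, rfl⟩ := mem_image.1 hk'
        obtain ⟨hW1, hW2⟩ := mem_sdiff.1 hW
        exact (key A hA W hW1 hW2 hxk hxk').elim
      · obtain ⟨A, hA, rfl⟩ := mem_image.1 hk'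
        obtain ⟨W, hW, rfl⟩ := mem_image.1 hk
        obtain ⟨hW1, hW2⟩ := mem_sdiff.1 hW
        exact (key A hA W hW1 hW2 hxk' hxk).elim
      · obtain ⟨W, hW, rfl⟩ := mem_image.1 hk
        obtain ⟨W', hW', rfl⟩ := mem_image.1 hk'
        obtain ⟨hW1, hW2⟩ := mem_sdiff.1 hW
        obtain ⟨hW1', hW2'⟩ := mem_sdiff.1 hW'
        rcases hown (hBC.cln W hW1) haS hxk with e1 | e1 <;>
          rcases hown (hBC.cln W' hW1') haS hxk' with e2 | e2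
        · rw [← e1, ← e2]
        · exact (hdisj a (e2 ▸ hπsp W' hW1') (e1 ▸ hW1)).elim
        · exact (hdisj a (e1 ▸ hπsp W hW1) (e2 ▸ hW1')).elim
        · rw [hπinj hW1 hW1' (e1.symm.trans e2)]

end Pool.Agent.KTB.H51
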