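import Mathlib
import Pool.Agent.KTB.StmtsKC
import Pool.Agent.Helper34_GEN.KPR

/-! # Squad KTB, row KKL: killed slopes have weak stable sets at all flat points -/

set_option autoImplicit false

namespace Pool.Agent.KTB.H51

open Finset Pool.Agent.Helper6_Mono Pool.Agent.Helper30_Simp Pool.Agent.Helper30_Simp2
open Pool.Agent.GEN
open scoped Classical

/-- duality: the function `1` on `T` is a combination of the monomials -/
theorem kkl_dual {σ : Type} [Fintype σ] (I : Finset (σ →₀ ℕ)) (T : Finset σ)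
    (h : ∀ v : σ → ℚ, (∀ i, i ∉ T → v i = 0) → (∀ α ∈ I, ∑ i, v i * (α i : ℚ) = 0) →
      ∑ i, v i = 0) :
    ∃ c : (σ →₀ ℕ) → ℚ, ∀ j ∈ T, ∑ α ∈ I, c α * (α j : ℚ) = 1 := by
  let a : I → (T → ℚ) := fun α j => ((α : σ →₀ ℕ) j : ℚ)
  have hmem : (fun _ : T => (1 : ℚ)) ∈ Submodule.span ℚ (Set.range a) := by
    by_contra hcon
    obtain ⟨f, hf1, hf2⟩ := Submodule.exists_le_ker_of_notMem hcon
    have hf3 : ∀ α : I, f (a α) = 0 := fun α =>
      LinearMap.mem_ker.1 (hf2 (Submodule.subset_span ⟨α, rfl⟩))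
    let v : σ → ℚ := fun i => if hi : i ∈ T then f (Pi.single ⟨i, hi⟩ 1) else 0
    have hfw : ∀ w : σ → ℚ, f (fun j : T => w j) = ∑ i, v i * w i := by
      intro w
      have h1 : (fun j : T => w j) = ∑ j : T, w j • (Pi.single j (1 : ℚ) : T → ℚ) := by
        funext k
        rw [Finset.sum_apply]
        simp [Pi.single_apply]
      rw [h1, map_sum]
      have h2 : ∑ i, v i * w i = ∑ i ∈ T, v i * w i := by
        symm
        apply Finset.sum_subset (subset_univ T)
        intro i _ hi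
        simp only [v, dif_neg hi, zero_mul]
      rw [h2, ← Finset.sum_coe_sort T (fun i => v i * w i)]
      apply Finset.sum_congr rfl
      intro j _
      rw [map_smul, smul_eq_mul]
      have h3 : v (j : σ) = f (Pi.single j 1) := by
        simp only [v, dif_pos j.2]
      rw [h3]
      ring
    have h4 := h v (fun i hi => by simp only [v, dif_neg hi]) (fun α hα => by
      rw [← hfw (fun i => (α i : ℚ))]
      exact hf3 ⟨α, hα⟩)
    apply hf1
    have h5 := hfw (fun _ => (1 : ℚ))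
    rw [h5]
    simpa using h4
  obtain ⟨c', hc'⟩ := (Submodule.mem_span_range_iff_exists_fun ℚ).1 hmem
  refine ⟨fun α => if hα : α ∈ I then c' ⟨α, hα⟩ else 0, ?_⟩
  intro j hj
  have h1 := congrFun hc' ⟨j, hj⟩
  rw [Finset.sum_apply] at h1
  rw [← h1, ← Finset.sum_coe_sort I]
  apply Finset.sum_congr rfl
  intro α _
  beta_reduce
  rw [dif_pos α.2]
  rfl

theorem kkl (kpm : KpmStmt) : KklStmt := by
  intro σ _ M x hkill κ N hfp
  obtain ⟨hκ, S, hflat, hin⟩ := hfp
  have hsum := hflat κ N hin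
  have hpos : 0 < ∑ i, κ i := by
    obtain ⟨i, hi⟩ := Function.ne_iff.1 hκ
    exact Finset.sum_pos' (fun _ _ => Nat.zero_le _)
      ⟨i, Finset.mem_univ i, Nat.pos_of_ne_zero hi⟩
  have hposq : (0 : ℚ) < ((∑ i, κ i : ℕ) : ℚ) := by exact_mod_cast hpos
  have hN : N ≠ 0 := by
    rintro rfl
    rw [Nat.cast_zero, mul_zero] at hsum
    exact hposq.ne' hsum
  have hmin : ∀ α ∈ M, N ≤ dot κ α := by
    intro α hα
    have h1 := hin.1 (Sum.inr ⟨α, hα⟩)
    simp only [slk] at h1
    omega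
  have hmem : ∀ α, α ∈ fce M κ ↔ α ∈ M ∧ dot κ α = N := by
    intro α
    unfold fce
    rw [Finset.mem_filter]
    constructor
    · rintro ⟨h1, h2⟩
      refine ⟨h1, ?_⟩
      have h3 := (H73.face_iff hflat hin hκ ⟨α, h1⟩).1 h2
      simp only [slk] at h3
      omega
    · rintro ⟨h1, h2⟩
      refine ⟨h1, (H73.face_iff hflat hin hκ ⟨α, h1⟩).2 ?_⟩
      simp only [slk]
      omega
  have hFL : ∀ v : σ → ℚ, (∀ i, i ∉ univ.filter (fun j => κ j ≠ 0) → v i = 0) →
      (∀ α ∈ fce M κ, ∑ i, v i * (α i : ℚ) = 0) → ∑ i, v i = 0 := by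
    intro v hv0' hvI
    have hv0 : ∀ i, κ i = 0 → v i = 0 := by
      intro i hi
      apply hv0'
      rw [Finset.mem_filter]
      exact fun h => h.2 hi
    obtain ⟨d, w, hd, hw⟩ := Pool.Agent.GEN.H34.clear_den v
    have hdq : (d : ℚ) ≠ 0 := by exact_mod_cast hd
    have hw0 : ∀ i, κ i = 0 → w i = 0 := by
      intro i hi
      have h1 := hw i
      rw [hv0 i hi, mul_zero] at h1
      exact_mod_cast h1
    have hwI : ∀ α ∈ fce M κ, ∑ i, w i * (α i : ℤ) = 0 := by
      intro α hα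
      have h1 := hvI α hα
      have h2 : ((∑ i, w i * (α i : ℤ) : ℤ) : ℚ) = 0 := by
        push_cast
        calc ∑ i, (w i : ℚ) * (α i : ℚ) = ∑ i, (d : ℚ) * (v i * (α i : ℚ)) :=
              Finset.sum_congr rfl fun i _ => by rw [hw i, mul_assoc]
          _ = 0 := by rw [← Finset.mul_sum, h1, mul_zero]
      exact_mod_cast h2
    set n : ℕ := ∑ i, (w i).natAbs + ∑ α ∈ M, (∑ i, w i * (α i : ℤ)).natAbs with hn
    have hn1 : ∀ i, (w i).natAbs ≤ n := fun i =>
      (Finset.single_le_sum (f := fun i => (w i).natAbs) (fun _ _ => Nat.zero_le _)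
        (Finset.mem_univ i)).trans (Nat.le_add_right _ _)
    have hn2 : ∀ α ∈ M, (∑ i, w i * (α i : ℤ)).natAbs ≤ n := fun α hα =>
      (Finset.single_le_sum (f := fun α : σ →₀ ℕ => (∑ i, w i * (α i : ℤ)).natAbs)
        (fun _ _ => Nat.zero_le _) hα).trans (Nat.le_add_left _ _)
    have hu0 : ∀ i, 0 ≤ (n : ℤ) * (κ i : ℤ) + w i := by
      intro i
      by_cases hi : κ i = 0
      · rw [hw0 i hi, hi]
        simp
      · have h1 : (1 : ℤ) ≤ (κ i : ℤ) := by exact_mod_cast Nat.one_le_iff_ne_zero.2 hi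
        have h2 : (n : ℤ) * 1 ≤ (n : ℤ) * (κ i : ℤ) :=
          mul_le_mul_of_nonneg_left h1 (Int.natCast_nonneg n)
        have h3 := hn1 i
        omega
    have hu : ∀ i, (((((n : ℤ) * (κ i : ℤ) + w i).toNat : ℕ)) : ℤ)
        = (n : ℤ) * (κ i : ℤ) + w i := fun i => Int.toNat_of_nonneg (hu0 i)
    have hdot : ∀ α : σ →₀ ℕ,
        ((dot (fun i => ((n : ℤ) * (κ i : ℤ) + w i).toNat) α : ℕ) : ℤ)
          = (n : ℤ) * ((dot κ α : ℕ) : ℤ) + ∑ i, w i * (α i : ℤ) := by
      intro α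
      rw [Pool.Agent.GEN.H34.dot_int, Pool.Agent.GEN.H34.dot_int, Finset.mul_sum,
        ← Finset.sum_add_distrib]
      refine Finset.sum_congr rfl fun i _ => ?_
      rw [hu i]
      ring
    have htight : ∀ α ∈ M, dot κ α = N →
        ((dot (fun i => ((n : ℤ) * (κ i : ℤ) + w i).toNat) α : ℕ) : ℤ) - ((n * N : ℕ) : ℤ)
          = 0 := by
      intro α hα h1
      rw [hdot α, h1, hwI α ((hmem α).2 ⟨hα, h1⟩)]
      push_cast
      ring
    have hin' : InK M S (fun i => ((n : ℤ) * (κ i : ℤ) + w i).toNat) (n * N) := by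
      refine ⟨fun ρ => ?_, fun ρ hρ => ?_⟩
      · rcases ρ with i | α
        · exact Int.natCast_nonneg _
        · show 0 ≤ ((dot (fun i => ((n : ℤ) * (κ i : ℤ) + w i).toNat)
            (α : σ →₀ ℕ) : ℕ) : ℤ) - ((n * N : ℕ) : ℤ)
          by_cases h1 : dot κ (α : σ →₀ ℕ) = N
          · rw [htight α α.2 h1]
          · rw [hdot]
            have h2 := hmin α α.2
            have h3 : (N : ℤ) + 1 ≤ ((dot κ (α : σ →₀ ℕ) : ℕ) : ℤ) := by omega
            have h4 : (n : ℤ) * ((N : ℤ) + 1) ≤ (n : ℤ) * ((dot κ (α : σ →₀ ℕ) : ℕ) : ℤ) :=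
              mul_le_mul_of_nonneg_left h3 (Int.natCast_nonneg n)
            have h5 := hn2 α α.2
            have h6 : -(n : ℤ) ≤ ∑ i, w i * ((α : σ →₀ ℕ) i : ℤ) := by omega
            push_cast
            linarith only [h4, h6]
      · have h1 := hin.2 ρ hρ
        rcases ρ with i | α
        · simp only [slk] at h1
          have h2 : κ i = 0 := by exact_mod_cast h1
          show (((((n : ℤ) * (κ i : ℤ) + w i).toNat : ℕ)) : ℤ) = 0
          rw [hu i, hw0 i h2, h2]
          simp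
        · simp only [slk] at h1
          exact htight α α.2 (by omega)
    have h1 := hflat _ _ hin'
    have h2 : ((∑ i, ((n : ℤ) * (κ i : ℤ) + w i).toNat : ℕ) : ℤ)
        = (n : ℤ) * ((∑ i, κ i : ℕ) : ℤ) + ∑ i, w i := by
      push_cast
      rw [Finset.mul_sum, ← Finset.sum_add_distrib]
      refine Finset.sum_congr rfl fun i _ => ?_
      rw [← hu i]
      rfl
    have h3 : ((∑ i, ((n : ℤ) * (κ i : ℤ) + w i).toNat : ℕ) : ℚ)
        = (n : ℚ) * ((∑ i, κ i : ℕ) : ℚ) + ((∑ i, w i : ℤ) : ℚ) := by exact_mod_cast h2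
    rw [h3, hsum] at h1
    have h4 : ((∑ i, w i : ℤ) : ℚ) = 0 := by
      push_cast at h1 ⊢
      linarith only [h1]
    have h5 : (d : ℚ) * ∑ i, v i = 0 := by
      rw [← h4, Finset.mul_sum]
      push_cast
      exact Finset.sum_congr rfl fun i _ => (hw i).symm
    exact (mul_eq_zero.1 h5).resolve_left hdq
  obtain ⟨c, hc⟩ := kkl_dual (fce M κ) (univ.filter fun j => κ j ≠ 0) hFL
  rcases kpm σ (fce M κ) (univ.filter fun j => κ j ≠ 0) c hc with h1 | ⟨K, hKT, hK⟩
  · exfalso
    obtain ⟨B, l, hBI, hind, hl, hpriv⟩ := h1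
    have hfb : FlatBase M κ N B := by
      refine ⟨Nat.pos_of_ne_zero hN, hmin, fun α hα => ((hmem α).1 (hBI hα)).1, ?_,
        fun α hα => ((hmem α).1 (hBI hα)).2, ?_, ?_⟩
      · obtain ⟨i, hi⟩ := Function.ne_iff.1 hκ
        by_contra hne
        rw [Finset.not_nonempty_iff_eq_empty] at hne
        have h2 := hl i (Finset.mem_filter.2 ⟨Finset.mem_univ i, hi⟩)
        rw [hne, Finset.sum_empty] at h2
        exact zero_ne_one h2
      · intro t ht
        have h1 := hind (fun α => (t α : ℚ)) (fun j => by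
          have h2 := ht j
          have h3 : ((∑ α, t α * (((α : σ →₀ ℕ) j : ℕ) : ℤ) : ℤ) : ℚ) = 0 := by
            rw [h2, Int.cast_zero]
          rw [← h3]
          push_cast
          rfl)
        funext α
        have h2 := congrFun h1 α
        rw [Pi.zero_apply] at h2 ⊢
        exact_mod_cast h2
      · intro v hv0 hvB
        have h2 : ∀ j, v j = ∑ α ∈ B, l α * (v j * (α j : ℚ)) := by
          intro j
          by_cases hj : κ j = 0
          · rw [hv0 j hj]
            simp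
          · have h3 := hl j (Finset.mem_filter.2 ⟨Finset.mem_univ j, hj⟩)
            calc v j = v j * ∑ α ∈ B, l α * (α j : ℚ) := by rw [h3, mul_one]
              _ = ∑ α ∈ B, l α * (v j * (α j : ℚ)) := by
                rw [Finset.mul_sum]
                exact Finset.sum_congr rfl fun α _ => by ring
        calc ∑ j, v j = ∑ j, ∑ α ∈ B, l α * (v j * (α j : ℚ)) :=
              Finset.sum_congr rfl fun j _ => h2 j
          _ = ∑ α ∈ B, ∑ j, l α * (v j * (α j : ℚ)) := Finset.sum_comm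
          _ = ∑ α ∈ B, l α * ∑ j, v j * (α j : ℚ) :=
              Finset.sum_congr rfl fun α _ => by rw [Finset.mul_sum]
          _ = 0 := Finset.sum_eq_zero fun α hα => by rw [hvB α hα, mul_zero]
    obtain ⟨A, hA, j, ⟨hj1, hj2, hj3⟩, huniq⟩ := hkill κ N B hfb hsum
    obtain ⟨i, hiT, hij, hi1, hi2⟩ := hpriv A hA j
      (Finset.mem_filter.2 ⟨Finset.mem_univ j, hj1⟩) hj2 hj3
    exact hij (huniq i ⟨(Finset.mem_filter.1 hiT).2, hi1, hi2⟩)
  · exact ⟨K, fun j hj => (Finset.mem_filter.1 (hKT hj)).2, hK⟩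

end Pool.Agent.KTB.H51
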